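import Pool.Agent.TB.Koenig

/-!
MP_dadc3d_co, BP. Labels of the half-edges which are not moved, from Koenig's theorem.

`TB.koenig 3` with `E = {e : V × V // G.Adj e.1 e.2 ∧ p e.1 < p e.2}`, `L = R = V ⊕ (V × V)`,
`l e = if M e.1 e.2 then inr e else inl e.1`, `r e = if M e.2 e.1 then inr e else inl e.2` (use
`classical`). The fibre of `inl u` under `l` injects into the filter in `h1` (for `r`: `h2`), the fibre
of `inr e` has at most one element. With the colouring `c` let
`γ u v = c (u, v)` if `G.Adj u v` and `p u < p v`; `γ u v = c (v, u) + 1` if `G.Adj u v` and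
`p v < p u`; `0` otherwise.
-/

set_option autoImplicit false

namespace Pool.Agent.BP

open Finset

private theorem Base_one {E : Type} [Fintype E] {α : Type} (f : E → α) (hf : Function.Injective f) (q : α)
    (P : E → Prop) [DecidablePred P] (h : ∀ e, P e → f e = q) : (univ.filter P).card ≤ 3 := by
  have h1 : (univ.filter P).card ≤ 1 := by
    rw [Finset.card_le_one]
    intro a ha b hb
    exact hf ((h a (mem_filter.1 ha).2).trans (h b (mem_filter.1 hb).2).symm)
  omega

private theorem Base_add : ∀ x : Fin 3, x ≠ x + 1 := by decide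

private theorem Base_can : ∀ x y : Fin 3, x + 1 = y + 1 → x = y := by decide

theorem base {V : Type} [Fintype V] [DecidableEq V] (G : SimpleGraph V) [DecidableRel G.Adj]
    (p : V → ℚ) (hp : Function.Injective p) (M : V → V → Prop) [DecidableRel M]
    (h1 : ∀ u, (univ.filter fun v => G.Adj u v ∧ p u < p v ∧ ¬ M u v).card ≤ 3)
    (h2 : ∀ u, (univ.filter fun v => G.Adj u v ∧ p v < p u ∧ ¬ M u v).card ≤ 3) :
    ∃ γ : V → V → Fin 3, (∀ u v, G.Adj u v → γ u v ≠ γ v u) ∧
      (∀ u v w, G.Adj u v → G.Adj u w → p u < p v → p u < p w → ¬ M u v → ¬ M u w →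
        γ u v = γ u w → v = w) ∧
      (∀ u v w, G.Adj u v → G.Adj u w → p v < p u → p w < p u → ¬ M u v → ¬ M u w →
        γ u v = γ u w → v = w) := by
  classical
  let E := {e : V × V // G.Adj e.1 e.2 ∧ p e.1 < p e.2}
  let l : E → V ⊕ (V × V) := fun e => if M e.1.1 e.1.2 then Sum.inr e.1 else Sum.inl e.1.1
  let r : E → V ⊕ (V × V) := fun e => if M e.1.2 e.1.1 then Sum.inr e.1 else Sum.inl e.1.2
  have hl1 : ∀ (e : E) (u : V), l e = Sum.inl u → ¬ M e.1.1 e.1.2 ∧ e.1.1 = u := by
    intro e u h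
    by_cases hM : M e.1.1 e.1.2
    · have h2 : l e = Sum.inr e.1 := if_pos hM
      rw [h2] at h
      exact absurd h (by simp)
    · have h2 : l e = Sum.inl e.1.1 := if_neg hM
      rw [h2] at h
      exact ⟨hM, Sum.inl.inj h⟩
  have hl2 : ∀ (e : E) (q : V × V), l e = Sum.inr q → e.1 = q := by
    intro e q h
    by_cases hM : M e.1.1 e.1.2
    · have h2 : l e = Sum.inr e.1 := if_pos hM
      rw [h2] at h
      exact Sum.inr.inj h
    · have h2 : l e = Sum.inl e.1.1 := if_neg hM
      rw [h2] at h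
      exact absurd h (by simp)
  have hr1 : ∀ (e : E) (u : V), r e = Sum.inl u → ¬ M e.1.2 e.1.1 ∧ e.1.2 = u := by
    intro e u h
    by_cases hM : M e.1.2 e.1.1
    · have h2 : r e = Sum.inr e.1 := if_pos hM
      rw [h2] at h
      exact absurd h (by simp)
    · have h2 : r e = Sum.inl e.1.2 := if_neg hM
      rw [h2] at h
      exact ⟨hM, Sum.inl.inj h⟩
  have hr2 : ∀ (e : E) (q : V × V), r e = Sum.inr q → e.1 = q := by
    intro e q h
    by_cases hM : M e.1.2 e.1.1
    · have h2 : r e = Sum.inr e.1 := if_pos hM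
      rw [h2] at h
      exact Sum.inr.inj h
    · have h2 : r e = Sum.inl e.1.2 := if_neg hM
      rw [h2] at h
      exact absurd h (by simp)
  obtain ⟨c, hc1, hc2⟩ := TB.koenig 3 E (V ⊕ (V × V)) (V ⊕ (V × V)) l r
    (by
      rintro (u | q)
      · refine le_trans (Finset.card_le_card_of_injOn (fun e : E => e.1.2) ?_ ?_) (h1 u)
        · intro e he
          obtain ⟨hM, hu⟩ := hl1 e u (mem_filter.1 (Finset.mem_coe.1 he)).2
          have h := e.2
          rw [Finset.mem_coe, mem_filter]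
          refine ⟨mem_univ _, ?_⟩
          rw [← hu]
          exact ⟨h.1, h.2, hM⟩
        · intro e he e' he' hee
          obtain ⟨-, hu⟩ := hl1 e u (mem_filter.1 (Finset.mem_coe.1 he)).2
          obtain ⟨-, hu'⟩ := hl1 e' u (mem_filter.1 (Finset.mem_coe.1 he')).2
          exact Subtype.ext (Prod.ext (hu.trans hu'.symm) hee)
      · exact Base_one (fun e : E => e.1) Subtype.val_injective q _ (fun e he => hl2 e q he))
    (by
      rintro (u | q)
      · refine le_trans (Finset.card_le_card_of_injOn (fun e : E => e.1.1) ?_ ?_) (h2 u)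
        · intro e he
          obtain ⟨hM, hu⟩ := hr1 e u (mem_filter.1 (Finset.mem_coe.1 he)).2
          have h := e.2
          rw [Finset.mem_coe, mem_filter]
          refine ⟨mem_univ _, ?_⟩
          rw [← hu]
          exact ⟨h.1.symm, h.2, hM⟩
        · intro e he e' he' hee
          obtain ⟨-, hu⟩ := hr1 e u (mem_filter.1 (Finset.mem_coe.1 he)).2
          obtain ⟨-, hu'⟩ := hr1 e' u (mem_filter.1 (Finset.mem_coe.1 he')).2
          exact Subtype.ext (Prod.ext hee (hu.trans hu'.symm))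
      · exact Base_one (fun e : E => e.1) Subtype.val_injective q _ (fun e he => hr2 e q he))
  let γ : V → V → Fin 3 := fun u v => if h : G.Adj u v ∧ p u < p v then c ⟨(u, v), h⟩ else
    if h : G.Adj v u ∧ p v < p u then c ⟨(v, u), h⟩ + 1 else 0
  have g1 : ∀ (u v : V) (h : G.Adj u v ∧ p u < p v), γ u v = c ⟨(u, v), h⟩ := fun u v h => dif_pos h
  have g2 : ∀ (u v : V) (h : G.Adj v u ∧ p v < p u), γ u v = c ⟨(v, u), h⟩ + 1 := by
    intro u v h
    have h' : ¬ (G.Adj u v ∧ p u < p v) := fun h3 => lt_asymm h3.2 h.2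
    have e1 : γ u v = if h : G.Adj v u ∧ p v < p u then c ⟨(v, u), h⟩ + 1 else 0 := dif_neg h'
    rw [e1, dif_pos h]
  refine ⟨γ, ?_, ?_, ?_⟩
  · intro u v huv
    have hne : p u ≠ p v := fun h => huv.ne (hp h)
    rcases lt_or_gt_of_ne hne with h | h
    · rw [g1 u v ⟨huv, h⟩, g2 v u ⟨huv, h⟩]
      exact Base_add _
    · rw [g1 v u ⟨huv.symm, h⟩, g2 u v ⟨huv.symm, h⟩]
      exact (Base_add _).symm
  · intro u v w huv huw hv hw hMv hMw hγ
    rw [g1 u v ⟨huv, hv⟩, g1 u w ⟨huw, hw⟩] at hγ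
    have e1 : l ⟨(u, v), ⟨huv, hv⟩⟩ = Sum.inl u := if_neg hMv
    have e2 : l ⟨(u, w), ⟨huw, hw⟩⟩ = Sum.inl u := if_neg hMw
    have h := congrArg (fun e : E => e.1.2) (hc1 _ _ (e1.trans e2.symm) hγ)
    exact h
  · intro u v w huv huw hv hw hMv hMw hγ
    rw [g2 u v ⟨huv.symm, hv⟩, g2 u w ⟨huw.symm, hw⟩] at hγ
    have e1 : r ⟨(v, u), ⟨huv.symm, hv⟩⟩ = Sum.inl u := if_neg hMv
    have e2 : r ⟨(w, u), ⟨huw.symm, hw⟩⟩ = Sum.inl u := if_neg hMw
    have h := congrArg (fun e : E => e.1.1) (hc2 _ _ (e1.trans e2.symm) (Base_can _ _ hγ))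
    exact h

end Pool.Agent.BP
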