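import Mathlib

/-!
MP_dadc3d_co, BP. Three small lemmas.

`choose`: if `Mu` is empty anything. If `Mu = {m}`: `Q` has at most one element, take `β m` outside
`Q` and different from `δ m`. If `Mu = {m1, m2}` with `k m1 < k m2`: `Q` is empty; take `β m2`
different from `δ m1`, `δ m2`, then `β m1` different from `β m2`, `δ m1`.

`cnt_moved`: let `F` be the filter on the left, if nonempty let `m0` be its member with the largest
`k`; the other members of `F` are in `S.filter fun v => k v < k m0`, so
`F.card - 1 ≤ (that).card < S.card - 3`.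

`cnt_rest`: let `R` be the filter; if it has at least 4 members let `r` be the one with the smallest
`k`; `S.filter fun v => k v < k r` is disjoint from `R` and contained in `S`, so it has at most
`S.card - 4` members, and `r` would not be in `R`.
-/

set_option autoImplicit false

namespace Pool.Agent.BP

open Finset

theorem exists_out (P : Finset (Fin 3)) (h : P.card ≤ 2) : ∃ c, c ∉ P := by
  by_contra hcon
  push Not at hcon
  have h1 : P = univ := eq_univ_iff_forall.2 hcon
  rw [h1, card_univ, Fintype.card_fin] at h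
  omega

theorem choose {V : Type} (k : V → ℚ) (hk : Function.Injective k) (Mu : Finset V)
    (Q : Finset (Fin 3)) (δ : V → Fin 3) (h : Mu.card + Q.card ≤ 2) :
    ∃ β : V → Fin 3, (∀ m ∈ Mu, β m ∉ Q) ∧ (∀ m ∈ Mu, ∀ m' ∈ Mu, β m = β m' → m = m') ∧
      (∀ m ∈ Mu, ∀ m' ∈ Mu, k m' ≤ k m → β m ≠ δ m') := by
  classical
  have h012 : Mu.card = 0 ∨ Mu.card = 1 ∨ Mu.card = 2 := by omega
  rcases h012 with h0 | h1 | h2
  · rw [card_eq_zero] at h0
    subst h0
    exact ⟨δ, by simp, by simp, by simp⟩
  · obtain ⟨m, rfl⟩ := card_eq_one.1 h1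
    obtain ⟨c, hc⟩ := exists_out (insert (δ m) Q) (by
      have := card_insert_le (δ m) Q
      omega)
    rw [mem_insert, not_or] at hc
    refine ⟨fun _ => c, fun _ _ => hc.2, fun a ha b hb _ => ?_, fun a ha b hb _ => ?_⟩
    · rw [mem_singleton.1 ha, mem_singleton.1 hb]
    · rw [mem_singleton.1 hb]
      exact hc.1
  · have hQ : Q = ∅ := card_eq_zero.1 (by omega)
    subst hQ
    -- two elements with `k m1 < k m2`
    obtain ⟨m1, m2, hlt, hMu⟩ : ∃ m1 m2 : V, k m1 < k m2 ∧ Mu = {m1, m2} := by
      obtain ⟨a, b, hab, hMu⟩ := card_eq_two.1 h2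
      rcases lt_or_gt_of_ne (fun e => hab (hk e) : k a ≠ k b) with h3 | h3
      · exact ⟨a, b, h3, hMu⟩
      · exact ⟨b, a, h3, by rw [hMu, pair_comm]⟩
    subst hMu
    have hne : m1 ≠ m2 := by
      rintro rfl
      exact lt_irrefl _ hlt
    obtain ⟨c2, hc2⟩ := exists_out {δ m1, δ m2} card_le_two
    obtain ⟨c1, hc1⟩ := exists_out {c2, δ m1} card_le_two
    simp only [mem_insert, mem_singleton, not_or] at hc1 hc2
    have e1 : (if m1 = m1 then c1 else c2) = c1 := if_pos rfl
    have e2 : (if m2 = m1 then c1 else c2) = c2 := if_neg hne.symm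
    refine ⟨fun v => if v = m1 then c1 else c2, fun _ _ => notMem_empty _, ?_, ?_⟩
    · intro a ha b hb hab
      rw [mem_insert, mem_singleton] at ha hb
      rcases ha with rfl | rfl <;> rcases hb with rfl | rfl
      · rfl
      · exact absurd (e1.symm.trans (hab.trans e2)) hc1.1
      · exact absurd (e1.symm.trans (hab.symm.trans e2)) hc1.1
      · rfl
    · intro a ha b hb hab
      rw [mem_insert, mem_singleton] at ha hb
      rcases ha with rfl | rfl <;> rcases hb with rfl | rfl
      · exact fun h3 => hc1.2 (e1.symm.trans h3)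
      · exact absurd hab (not_le.2 hlt)
      · exact fun h3 => hc2.1 (e2.symm.trans h3)
      · exact fun h3 => hc2.2 (e2.symm.trans h3)

theorem cnt_moved {V : Type} (k : V → ℚ) (hk : Function.Injective k) (S : Finset V) :
    (S.filter fun m => (S.filter fun v => k v < k m).card + 3 < S.card).card ≤ S.card - 3 := by
  classical
  obtain ⟨F, hF⟩ : ∃ F, F = S.filter fun m => (S.filter fun v => k v < k m).card + 3 < S.card :=
    ⟨_, rfl⟩
  rw [← hF]
  rcases F.eq_empty_or_nonempty with h0 | h0
  · rw [h0, card_empty]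
    omega
  · obtain ⟨m0, hm0, hmax⟩ := exists_max_image F k h0
    have h1 : F.erase m0 ⊆ S.filter fun v => k v < k m0 := by
      intro v hv
      obtain ⟨hne, hvF⟩ := mem_erase.1 hv
      have hvS : v ∈ S := by
        rw [hF] at hvF
        exact (mem_filter.1 hvF).1
      exact mem_filter.2 ⟨hvS, lt_of_le_of_ne (hmax v hvF) fun e => hne (hk e)⟩
    have h2 := card_le_card h1
    rw [card_erase_of_mem hm0] at h2
    have h3 : (S.filter fun v => k v < k m0).card + 3 < S.card := by
      rw [hF] at hm0
      exact (mem_filter.1 hm0).2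
    omega

theorem cnt_rest {V : Type} (k : V → ℚ) (hk : Function.Injective k) (S : Finset V) :
    (S.filter fun m => ¬ ((S.filter fun v => k v < k m).card + 3 < S.card)).card ≤ 3 := by
  classical
  obtain ⟨R, hR⟩ : ∃ R, R = S.filter fun m =>
    ¬ ((S.filter fun v => k v < k m).card + 3 < S.card) := ⟨_, rfl⟩
  rw [← hR]
  by_contra hcon
  obtain ⟨r, hr, hmin⟩ := exists_min_image R k (card_pos.1 (by omega))
  have hRS : R ⊆ S := by
    rw [hR]
    exact filter_subset _ _
  have h1 : Disjoint (S.filter fun v => k v < k r) R := by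
    rw [disjoint_left]
    intro v hv hvR
    exact absurd (mem_filter.1 hv).2 (not_lt.2 (hmin v hvR))
  have h2 : ((S.filter fun v => k v < k r) ∪ R).card ≤ S.card :=
    card_le_card (union_subset (filter_subset _ _) hRS)
  rw [card_union_of_disjoint h1] at h2
  have h3 : ¬ ((S.filter fun v => k v < k r).card + 3 < S.card) := by
    rw [hR] at hr
    exact (mem_filter.1 hr).2
  omega

end Pool.Agent.BP
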