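import Mathlib

/-!
MP_dadc3d_co, BP (bipartite graphs). The K condition from the labels.

`p` places the vertices on a line. `M u m`: the neighbour `m` of `u` is moved (only for `u` in the
independent set `Y`). `hs1`, `hs2`: the moved neighbours are the nearest ones. Classes of the
neighbours of `u`: A = not moved and right of `u`, or moved and left of `u`; B = not moved and left,
or moved and right. In every class the labels are different (`hA`, `hB`).

Proof. Call `u` in `W` left-special (L) if there is `m` in `W` with `M u m`, `p u < p m`,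
`α u m = a`; right-special (R) if there is `m` in `W` with `M u m`, `p m < p u`, `α u m = a`. Special
vertices are in `Y` and the `m` are not in `Y` (hM, hY), so the `m` are not special.
Let `g` be the member of `W` not L with the smallest `p` (exists: if `w` is L then its `m` is not L).
(1) `g` has no half of label `a` to a `u` in `W` with `p u < p g`: `u` is L by minimality, with `m`;
`g` is adjacent to `u` in `Y`, so not in `Y`; `m` is not L, so `p g ≤ p m`; if `p g < p m` then
`M u g` by hs1, if `p g = p m` then `g = m` (hp) and `M u g`. By hc1 (with `m' = g`)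
`α g u ≠ α u m = a`.
(2) so `g` has at most one `v'` in `W` with `G.Adj g v'`, `α g v' = a`: such a `v'` has `p g < p v'`
by (1) (and hp, `v' ≠ g`); it is not moved (otherwise `g` would be L), so it is in class A, and hA
gives uniqueness.
In the same way the member `g'` of `W` not R with the largest `p` has no half of label `a` to a `u` in
`W` with `p g' < p u` (hs2, hc2), and at most one `v'` (class B, hB).
If `w ≠ g` take `g`; if `w = g ≠ g'` take `g'`. Let `w = g = g'`. Every other member `u` of `W` is L (if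
`p u < p g`) or R (if `p g < p u`), so in `Y`. Take any `u ≠ g` in `W` (2 ≤ card). Its neighbours in
`W` are not in `Y`, so equal to `g`: the filter is contained in `{g}`.
-/

set_option autoImplicit false

namespace Pool.Agent.BP

open Finset

theorem win {V : Type} (G : SimpleGraph V) [DecidableRel G.Adj] (p : V → ℚ) (hp : Function.Injective p)
    (Y : Finset V) (hY : ∀ u ∈ Y, ∀ v ∈ Y, ¬ G.Adj u v) (M : V → V → Prop) (α : V → V → Fin 3)
    (hM : ∀ u m, M u m → u ∈ Y ∧ G.Adj u m)
    (hs1 : ∀ u m v, M u m → p u < p m → G.Adj u v → p u < p v → p v < p m → M u v)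
    (hs2 : ∀ u m v, M u m → p m < p u → G.Adj u v → p v < p u → p m < p v → M u v)
    (hA : ∀ u v w, G.Adj u v → G.Adj u w → ((p u < p v ∧ ¬ M u v) ∨ (p v < p u ∧ M u v)) →
      ((p u < p w ∧ ¬ M u w) ∨ (p w < p u ∧ M u w)) → α u v = α u w → v = w)
    (hB : ∀ u v w, G.Adj u v → G.Adj u w → ((p v < p u ∧ ¬ M u v) ∨ (p u < p v ∧ M u v)) →
      ((p w < p u ∧ ¬ M u w) ∨ (p u < p w ∧ M u w)) → α u v = α u w → v = w)
    (hc1 : ∀ u m m', M u m → M u m' → p u < p m' → p m' ≤ p m → α m' u ≠ α u m)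
    (hc2 : ∀ u m m', M u m → M u m' → p m' < p u → p m ≤ p m' → α m' u ≠ α u m)
    (a : Fin 3) (W : Finset V) (w : V) (hw : w ∈ W) (hW : 2 ≤ W.card) :
    ∃ v ∈ W, v ≠ w ∧ (W.filter fun v' => G.Adj v v' ∧ α v v' = a).card ≤ 1 := by
  classical
  -- left-special and right-special
  obtain ⟨LS, hLS⟩ : ∃ LS : V → Prop, LS = fun u => ∃ m ∈ W, M u m ∧ p u < p m ∧ α u m = a :=
    ⟨_, rfl⟩
  obtain ⟨RS, hRS⟩ : ∃ RS : V → Prop, RS = fun u => ∃ m ∈ W, M u m ∧ p m < p u ∧ α u m = a :=
    ⟨_, rfl⟩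
  have hLv : ∀ u, LS u ↔ ∃ m ∈ W, M u m ∧ p u < p m ∧ α u m = a := fun u => by rw [hLS]
  have hRv : ∀ u, RS u ↔ ∃ m ∈ W, M u m ∧ p m < p u ∧ α u m = a := fun u => by rw [hRS]
  have hLY : ∀ u, LS u → u ∈ Y := fun u h => by
    obtain ⟨m, -, hm, -⟩ := (hLv u).1 h
    exact (hM u m hm).1
  have hRY : ∀ u, RS u → u ∈ Y := fun u h => by
    obtain ⟨m, -, hm, -⟩ := (hRv u).1 h
    exact (hM u m hm).1
  have hmL : ∀ u m, M u m → ¬ LS m := fun u m h hl =>
    hY u (hM u m h).1 m (hLY m hl) (hM u m h).2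
  have hmR : ∀ u m, M u m → ¬ RS m := fun u m h hl =>
    hY u (hM u m h).1 m (hRY m hl) (hM u m h).2
  have hneL : (W.filter fun u => ¬ LS u).Nonempty := by
    by_cases h : LS w
    · obtain ⟨m, hmW, hm, -⟩ := (hLv w).1 h
      exact ⟨m, mem_filter.2 ⟨hmW, hmL w m hm⟩⟩
    · exact ⟨w, mem_filter.2 ⟨hw, h⟩⟩
  have hneR : (W.filter fun u => ¬ RS u).Nonempty := by
    by_cases h : RS w
    · obtain ⟨m, hmW, hm, -⟩ := (hRv w).1 h
      exact ⟨m, mem_filter.2 ⟨hmW, hmR w m hm⟩⟩
    · exact ⟨w, mem_filter.2 ⟨hw, h⟩⟩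
  obtain ⟨g, hg, hgmin⟩ := exists_min_image _ p hneL
  obtain ⟨g', hg', hgmax⟩ := exists_max_image _ p hneR
  rw [mem_filter] at hg hg'
  have hLof : ∀ u ∈ W, p u < p g → LS u := fun u hu hlt => by
    by_contra hcon
    exact absurd (hgmin u (mem_filter.2 ⟨hu, hcon⟩)) (not_le.2 hlt)
  have hRof : ∀ u ∈ W, p g' < p u → RS u := fun u hu hlt => by
    by_contra hcon
    exact absurd (hgmax u (mem_filter.2 ⟨hu, hcon⟩)) (not_le.2 hlt)
  -- (1)
  have h1 : ∀ u ∈ W, G.Adj g u → p u < p g → α g u ≠ a := by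
    intro u hu hadj hlt
    obtain ⟨m, hmW, hm, hpm, ham⟩ := (hLv u).1 (hLof u hu hlt)
    have hgm : p g ≤ p m := hgmin m (mem_filter.2 ⟨hmW, hmL u m hm⟩)
    have hMg : M u g := by
      rcases hgm.eq_or_lt with h | h
      · rw [hp h]
        exact hm
      · exact hs1 u m g hm hpm hadj.symm hlt h
    rw [← ham]
    exact hc1 u m g hm hMg hlt hgm
  have h1' : ∀ u ∈ W, G.Adj g' u → p g' < p u → α g' u ≠ a := by
    intro u hu hadj hlt
    obtain ⟨m, hmW, hm, hpm, ham⟩ := (hRv u).1 (hRof u hu hlt)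
    have hgm : p m ≤ p g' := hgmax m (mem_filter.2 ⟨hmW, hmR u m hm⟩)
    have hMg : M u g' := by
      rcases hgm.eq_or_lt with h | h
      · rw [← hp h]
        exact hm
      · exact hs2 u m g' hm hpm hadj.symm hlt h
    rw [← ham]
    exact hc2 u m g' hm hMg hlt hgm
  -- (2)
  have h2 : ∀ v ∈ W, G.Adj g v → α g v = a → p g < p v ∧ ¬ M g v := by
    intro v hv hadj ha
    have hne : p v ≠ p g := fun h => hadj.ne (hp h).symm
    have hlt : p g < p v := by
      rcases lt_or_gt_of_ne hne with h | h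
      · exact absurd ha (h1 v hv hadj h)
      · exact h
    exact ⟨hlt, fun hMv => hg.2 ((hLv g).2 ⟨v, hv, hMv, hlt, ha⟩)⟩
  have h2' : ∀ v ∈ W, G.Adj g' v → α g' v = a → p v < p g' ∧ ¬ M g' v := by
    intro v hv hadj ha
    have hne : p v ≠ p g' := fun h => hadj.ne (hp h).symm
    have hlt : p v < p g' := by
      rcases lt_or_gt_of_ne hne with h | h
      · exact h
      · exact absurd ha (h1' v hv hadj h)
    exact ⟨hlt, fun hMv => hg'.2 ((hRv g').2 ⟨v, hv, hMv, hlt, ha⟩)⟩
  by_cases hgw : g = w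
  · by_cases hgw' : g' = w
    · -- all other members of `W` are in `Y`
      have hall : ∀ u ∈ W, u ≠ w → u ∈ Y := by
        intro u hu hne
        have hpne : p u ≠ p w := fun h => hne (hp h)
        rcases lt_or_gt_of_ne hpne with h | h
        · exact hLY u (hLof u hu (by rw [hgw]; exact h))
        · exact hRY u (hRof u hu (by rw [hgw']; exact h))
      obtain ⟨u, hu, huw⟩ := exists_mem_ne (by omega : 1 < W.card) w
      refine ⟨u, hu, huw, ?_⟩
      have hsub : (W.filter fun v' => G.Adj u v' ∧ α u v' = a) ⊆ {w} := by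
        intro v hv
        rw [mem_filter] at hv
        rw [mem_singleton]
        by_contra hne
        exact hY u (hall u hu huw) v (hall v hv.1 hne) hv.2.1
      exact (card_le_card hsub).trans (card_singleton w).le
    · refine ⟨g', hg'.1, hgw', ?_⟩
      rw [card_le_one]
      intro v hv v' hv'
      rw [mem_filter] at hv hv'
      exact hB g' v v' hv.2.1 hv'.2.1 (Or.inl (h2' v hv.1 hv.2.1 hv.2.2))
        (Or.inl (h2' v' hv'.1 hv'.2.1 hv'.2.2)) (hv.2.2.trans hv'.2.2.symm)
  · refine ⟨g, hg.1, hgw, ?_⟩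
    rw [card_le_one]
    intro v hv v' hv'
    rw [mem_filter] at hv hv'
    exact hA g v v' hv.2.1 hv'.2.1 (Or.inl (h2 v hv.1 hv.2.1 hv.2.2))
      (Or.inl (h2 v' hv'.1 hv'.2.1 hv'.2.2)) (hv.2.2.trans hv'.2.2.symm)

end Pool.Agent.BP
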