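import Pool.Agent.BP.Choose
import Pool.Agent.BP.Base
import Pool.Agent.BP.Win

/-!
MP_dadc3d_co, BP. The labels.

Use `classical`. For `u` let `S u` and `P u` be the sets of the neighbours right and left of `u`.
`M u m` := `u ∈ Y`, `G.Adj u m` and (`p u < p m` and
`((S u).filter fun v => p v < p m).card + 3 < (S u).card`, or `p m < p u` and
`((P u).filter fun v => p m < p v).card + 3 < (P u).card`).
`hs1`, `hs2` of `win` are clear (the filter for `v` is contained in the one for `m`).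
`h1` of `base`: for `u` not in `Y` by `hr`; for `u` in `Y` by `cnt_rest p _ (S u)`; `h2`: `hl`,
`cnt_rest (fun v => - p v) _ (P u)`. Let `γ` be from `base`.
For every `u` there is `β : V → Fin 3` with
 (i) `M u m`, `G.Adj u v`, `¬ M u v`, and (`p v < p u < p m` or `p m < p u < p v`) imply `β m ≠ γ u v`;
 (ii) `M u m`, `M u m'`, `β m = β m'` imply `m = m'`;
 (iii) `M u m`, `M u m'`, and (`p u < p m' ≤ p m` or `p m ≤ p m' < p u`) imply `β m ≠ γ m' u`.
Proof: if no `m` is moved, clear; so `u ∈ Y` and `(S u).card + (P u).card ≤ 5` (h5). If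
`4 ≤ (S u).card` then `(P u).card ≤ 1`, all moved `m` are in `S u`; use `choose p` with `Mu` = the
moved ones (`cnt_moved p _ (S u)`: at most `(S u).card - 3`), `Q = (P u).image (γ u)`,
`δ m = γ m u`. Otherwise `(S u).card ≤ 3` and all moved `m` are in `P u`, `4 ≤ (P u).card`; use
`choose (fun v => - p v)` with `Q = (S u).image (γ u)`.
Let `α u v = β_u v` if `M u v`, else `γ u v`. Then
* `α u v ≠ α v u`: at most one of `M u v`, `M v u` holds (both would have `u`, `v` in `Y`); `base`, or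
  (iii) with `m' = m`;
* class A and class B have different labels: two moved ones are both on the same side by
  assumption: (ii); two not moved ones: `base`; one moved, one not moved: they are on different sides:
  (i);
* `hc1`, `hc2` of `win`: `M u m'`, so `α m' u = γ m' u`; (iii).
`lab` collects: mates, two per label (the neighbours with label `a` are at most one in class A and at
most one in class B), and `win`.
-/

set_option autoImplicit false

namespace Pool.Agent.BP

open Finset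

/-- The moved neighbours. -/
private def Mv {V : Type} (G : SimpleGraph V) (p : V → ℚ) (Y : Finset V) (S P : V → Finset V)
    (u m : V) : Prop :=
  u ∈ Y ∧ G.Adj u m ∧
    ((p u < p m ∧ ((S u).filter fun v => p v < p m).card + 3 < (S u).card) ∨
      (p m < p u ∧ ((P u).filter fun v => p m < p v).card + 3 < (P u).card))

/-- The labels of the moved half-edges at one vertex. -/
private theorem one_vertex {V : Type} [Fintype V] (G : SimpleGraph V) [DecidableRel G.Adj] (p : V → ℚ)
    (hp : Function.Injective p) (Y : Finset V) (h5 : ∀ u ∈ Y, G.degree u ≤ 5) (S P : V → Finset V)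
    (hS : ∀ u v, v ∈ S u ↔ G.Adj u v ∧ p u < p v) (hP : ∀ u v, v ∈ P u ↔ G.Adj u v ∧ p v < p u)
    (γ : V → V → Fin 3) (u : V) :
    ∃ β : V → Fin 3,
      (∀ m v, Mv G p Y S P u m → G.Adj u v →
        ((p v < p u ∧ p u < p m) ∨ (p m < p u ∧ p u < p v)) → β m ≠ γ u v) ∧
      (∀ m m', Mv G p Y S P u m → Mv G p Y S P u m' → β m = β m' → m = m') ∧
      ∀ m m', Mv G p Y S P u m → Mv G p Y S P u m' →
        ((p u < p m' ∧ p m' ≤ p m) ∨ (p m ≤ p m' ∧ p m' < p u)) → β m ≠ γ m' u := by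
  classical
  by_cases hex : ∃ m, Mv G p Y S P u m
  swap
  · refine ⟨fun _ => 0, fun m v h => absurd ⟨m, h⟩ hex, fun m m' h => absurd ⟨m, h⟩ hex,
      fun m m' h => absurd ⟨m, h⟩ hex⟩
  obtain ⟨m0, hm0⟩ := hex
  have hdeg : (S u).card + (P u).card ≤ 5 := by
    have hdis : Disjoint (S u) (P u) := by
      rw [disjoint_left]
      intro v hv hv'
      exact lt_asymm ((hS u v).1 hv).2 ((hP u v).1 hv').2
    rw [← card_union_of_disjoint hdis]
    refine le_trans (card_le_card ?_) (h5 u hm0.1)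
    intro v hv
    rw [SimpleGraph.mem_neighborFinset]
    rcases mem_union.1 hv with h | h
    · exact ((hS u v).1 h).1
    · exact ((hP u v).1 h).1
  have hnp : Function.Injective fun v => - p v := fun a b h => hp (neg_injective h)
  rcases Nat.lt_or_ge (S u).card 4 with hc | hc
  · -- all moved vertices are on the left
    have hM : ∀ m, Mv G p Y S P u m → G.Adj u m ∧ p m < p u ∧
        ((P u).filter fun v => p m < p v).card + 3 < (P u).card := by
      intro m hm
      rcases hm.2.2 with h | h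
      · have := h.2
        omega
      · exact ⟨hm.2.1, h⟩
    obtain ⟨Mu, hMu⟩ : ∃ Mu : Finset V, Mu = (P u).filter fun m =>
        ((P u).filter fun v => - p v < - p m).card + 3 < (P u).card := ⟨_, rfl⟩
    have hMu' : ∀ m, Mv G p Y S P u m → m ∈ Mu := by
      intro m hm
      rw [hMu, mem_filter]
      refine ⟨(hP u m).2 ⟨(hM m hm).1, (hM m hm).2.1⟩, ?_⟩
      have h := (hM m hm).2.2
      have he : ((P u).filter fun v => - p v < - p m) = (P u).filter fun v => p m < p v := by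
        apply filter_congr
        intro v _
        exact neg_lt_neg_iff
      rw [he]
      exact h
    have hcard := cnt_moved (fun v => - p v) hnp (P u)
    have h4 := (hM m0 hm0).2.2
    have hQ : ((S u).image (γ u)).card ≤ (S u).card := card_image_le
    have hsum : Mu.card + ((S u).image (γ u)).card ≤ 2 := by
      have : Mu.card ≤ (P u).card - 3 := by
        rw [hMu]
        exact hcard
      omega
    obtain ⟨β, hβ1, hβ2, hβ3⟩ := choose (fun v => - p v) hnp Mu ((S u).image (γ u))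
      (fun m => γ m u) hsum
    refine ⟨β, ?_, ?_, ?_⟩
    · rintro m v hm hv (h | h)
      · exact absurd (hM m hm).2.1 (lt_asymm h.2)
      · intro he
        apply hβ1 m (hMu' m hm)
        rw [he]
        exact mem_image_of_mem _ ((hS u v).2 ⟨hv, h.2⟩)
    · intro m m' hm hm' he
      exact hβ2 m (hMu' m hm) m' (hMu' m' hm') he
    · rintro m m' hm hm' (h | h)
      · exact absurd (hM m' hm').2.1 (lt_asymm h.1)
      · exact hβ3 m (hMu' m hm) m' (hMu' m' hm') (neg_le_neg h.1)
  · -- all moved vertices are on the right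
    have hM : ∀ m, Mv G p Y S P u m → G.Adj u m ∧ p u < p m ∧
        ((S u).filter fun v => p v < p m).card + 3 < (S u).card := by
      intro m hm
      rcases hm.2.2 with h | h
      · exact ⟨hm.2.1, h⟩
      · have := h.2
        omega
    obtain ⟨Mu, hMu⟩ : ∃ Mu : Finset V, Mu = (S u).filter fun m =>
        ((S u).filter fun v => p v < p m).card + 3 < (S u).card := ⟨_, rfl⟩
    have hMu' : ∀ m, Mv G p Y S P u m → m ∈ Mu := by
      intro m hm
      rw [hMu, mem_filter]
      exact ⟨(hS u m).2 ⟨(hM m hm).1, (hM m hm).2.1⟩, (hM m hm).2.2⟩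
    have hcard := cnt_moved p hp (S u)
    have hQ : ((P u).image (γ u)).card ≤ (P u).card := card_image_le
    have hsum : Mu.card + ((P u).image (γ u)).card ≤ 2 := by
      have : Mu.card ≤ (S u).card - 3 := by
        rw [hMu]
        exact hcard
      omega
    obtain ⟨β, hβ1, hβ2, hβ3⟩ := choose p hp Mu ((P u).image (γ u)) (fun m => γ m u) hsum
    refine ⟨β, ?_, ?_, ?_⟩
    · rintro m v hm hv (h | h)
      · intro he
        apply hβ1 m (hMu' m hm)
        rw [he]
        exact mem_image_of_mem _ ((hP u v).2 ⟨hv, h.1⟩)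
      · exact absurd (hM m hm).2.1 (lt_asymm h.1)
    · intro m m' hm hm' he
      exact hβ2 m (hMu' m hm) m' (hMu' m' hm') he
    · rintro m m' hm hm' (h | h)
      · exact hβ3 m (hMu' m hm) m' (hMu' m' hm') h.2
      · exact absurd (hM m' hm').2.1 (lt_asymm h.2)

theorem lab {V : Type} [Fintype V] (G : SimpleGraph V) [DecidableRel G.Adj] (p : V → ℚ)
    (hp : Function.Injective p) (Y : Finset V) (hY : ∀ u ∈ Y, ∀ v ∈ Y, ¬ G.Adj u v)
    (h5 : ∀ u ∈ Y, G.degree u ≤ 5)
    (hl : ∀ u, u ∉ Y → (univ.filter fun v => G.Adj u v ∧ p v < p u).card ≤ 3)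
    (hr : ∀ u, u ∉ Y → (univ.filter fun v => G.Adj u v ∧ p u < p v).card ≤ 3) :
    ∃ α : V → V → Fin 3, (∀ u v, G.Adj u v → α u v ≠ α v u) ∧
      (∀ u a, (univ.filter fun v => G.Adj u v ∧ α u v = a).card ≤ 2) ∧
      ∀ (a : Fin 3) (W : Finset V) (w : V), w ∈ W → 2 ≤ W.card →
        ∃ v ∈ W, v ≠ w ∧ (W.filter fun v' => G.Adj v v' ∧ α v v' = a).card ≤ 1 := by
  classical
  obtain ⟨S, hSd⟩ : ∃ S : V → Finset V, S = fun u => univ.filter fun v => G.Adj u v ∧ p u < p v :=
    ⟨_, rfl⟩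
  obtain ⟨P, hPd⟩ : ∃ P : V → Finset V, P = fun u => univ.filter fun v => G.Adj u v ∧ p v < p u :=
    ⟨_, rfl⟩
  have hS : ∀ u v, v ∈ S u ↔ G.Adj u v ∧ p u < p v := by
    intro u v
    rw [hSd]
    simp
  have hP : ∀ u v, v ∈ P u ↔ G.Adj u v ∧ p v < p u := by
    intro u v
    rw [hPd]
    simp
  have hnp : Function.Injective fun v => - p v := fun a b h => hp (neg_injective h)
  obtain ⟨M, hMd⟩ : ∃ M : V → V → Prop, M = Mv G p Y S P := ⟨_, rfl⟩
  have hMY : ∀ u m, M u m → u ∈ Y ∧ G.Adj u m := by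
    intro u m h
    rw [hMd] at h
    exact ⟨h.1, h.2.1⟩
  have hnM : ∀ u m, M u m → ¬ M m u := by
    intro u m h h'
    exact hY u (hMY u m h).1 m (hMY m u h').1 (hMY u m h).2
  have h1 : ∀ u, (univ.filter fun v => G.Adj u v ∧ p u < p v ∧ ¬ M u v).card ≤ 3 := by
    intro u
    by_cases hu : u ∈ Y
    · refine le_trans (card_le_card ?_) (cnt_rest p hp (S u))
      intro v hv
      rw [mem_filter] at hv ⊢
      refine ⟨(hS u v).2 ⟨hv.2.1, hv.2.2.1⟩, fun h => hv.2.2.2 ?_⟩
      rw [hMd]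
      exact ⟨hu, hv.2.1, Or.inl ⟨hv.2.2.1, h⟩⟩
    · refine le_trans (card_le_card ?_) (hr u hu)
      intro v hv
      rw [mem_filter] at hv ⊢
      exact ⟨hv.1, hv.2.1, hv.2.2.1⟩
  have h2 : ∀ u, (univ.filter fun v => G.Adj u v ∧ p v < p u ∧ ¬ M u v).card ≤ 3 := by
    intro u
    by_cases hu : u ∈ Y
    · refine le_trans (card_le_card ?_) (cnt_rest (fun v => - p v) hnp (P u))
      intro v hv
      rw [mem_filter] at hv ⊢
      refine ⟨(hP u v).2 ⟨hv.2.1, hv.2.2.1⟩, fun h => hv.2.2.2 ?_⟩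
      rw [hMd]
      refine ⟨hu, hv.2.1, Or.inr ⟨hv.2.2.1, ?_⟩⟩
      have he : ((P u).filter fun w => - p w < - p v) = (P u).filter fun w => p v < p w := by
        apply filter_congr
        intro w _
        exact neg_lt_neg_iff
      rw [← he]
      exact h
    · refine le_trans (card_le_card ?_) (hl u hu)
      intro v hv
      rw [mem_filter] at hv ⊢
      exact ⟨hv.1, hv.2.1, hv.2.2.1⟩
  obtain ⟨γ, hγ1, hγ2, hγ3⟩ := base G p hp M h1 h2
  choose β hβ1 hβ2 hβ3 using fun u => one_vertex G p hp Y h5 S P hS hP γ u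
  rw [← hMd] at hβ1 hβ2 hβ3
  obtain ⟨α, hα⟩ : ∃ α : V → V → Fin 3, α = fun u v => if M u v then β u v else γ u v := ⟨_, rfl⟩
  have hαM : ∀ u v, M u v → α u v = β u v := by
    intro u v h
    rw [hα]
    simp only [if_pos h]
  have hαN : ∀ u v, ¬ M u v → α u v = γ u v := by
    intro u v h
    rw [hα]
    simp only [if_neg h]
  have hne : ∀ u v, G.Adj u v → p u < p v ∨ p v < p u := by
    intro u v h
    exact lt_or_gt_of_ne fun he => h.ne (hp he)
  have hA : ∀ u v w, G.Adj u v → G.Adj u w → ((p u < p v ∧ ¬ M u v) ∨ (p v < p u ∧ M u v)) →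
      ((p u < p w ∧ ¬ M u w) ∨ (p w < p u ∧ M u w)) → α u v = α u w → v = w := by
    rintro u v w hv hw (⟨a1, a2⟩ | ⟨a1, a2⟩) (⟨b1, b2⟩ | ⟨b1, b2⟩) he
    · rw [hαN u v a2, hαN u w b2] at he
      exact hγ2 u v w hv hw a1 b1 a2 b2 he
    · rw [hαN u v a2, hαM u w b2] at he
      exact absurd he.symm (hβ1 u w v b2 hv (Or.inr ⟨b1, a1⟩))
    · rw [hαM u v a2, hαN u w b2] at he
      exact absurd he (hβ1 u v w a2 hw (Or.inr ⟨a1, b1⟩))
    · rw [hαM u v a2, hαM u w b2] at he
      exact hβ2 u v w a2 b2 he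
  have hB : ∀ u v w, G.Adj u v → G.Adj u w → ((p v < p u ∧ ¬ M u v) ∨ (p u < p v ∧ M u v)) →
      ((p w < p u ∧ ¬ M u w) ∨ (p u < p w ∧ M u w)) → α u v = α u w → v = w := by
    rintro u v w hv hw (⟨a1, a2⟩ | ⟨a1, a2⟩) (⟨b1, b2⟩ | ⟨b1, b2⟩) he
    · rw [hαN u v a2, hαN u w b2] at he
      exact hγ3 u v w hv hw a1 b1 a2 b2 he
    · rw [hαN u v a2, hαM u w b2] at he
      exact absurd he.symm (hβ1 u w v b2 hv (Or.inl ⟨a1, b1⟩))
    · rw [hαM u v a2, hαN u w b2] at he
      exact absurd he (hβ1 u v w a2 hw (Or.inl ⟨b1, a1⟩))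
    · rw [hαM u v a2, hαM u w b2] at he
      exact hβ2 u v w a2 b2 he
  refine ⟨α, ?_, ?_, ?_⟩
  · intro u v huv
    by_cases h : M u v
    · rw [hαM u v h, hαN v u (hnM u v h)]
      apply hβ3 u v v h h
      rcases hne u v huv with h' | h'
      · exact Or.inl ⟨h', le_rfl⟩
      · exact Or.inr ⟨le_rfl, h'⟩
    · by_cases h' : M v u
      · rw [hαN u v h, hαM v u h']
        apply Ne.symm
        apply hβ3 v u u h' h'
        rcases hne u v huv with h'' | h''
        · exact Or.inr ⟨le_rfl, h''⟩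
        · exact Or.inl ⟨h'', le_rfl⟩
      · rw [hαN u v h, hαN v u h']
        exact hγ1 u v huv
  · intro u a
    have hsub : (univ.filter fun v => G.Adj u v ∧ α u v = a) ⊆
        (univ.filter fun v => (G.Adj u v ∧ ((p u < p v ∧ ¬ M u v) ∨ (p v < p u ∧ M u v))) ∧ α u v = a) ∪
        (univ.filter fun v => (G.Adj u v ∧ ((p v < p u ∧ ¬ M u v) ∨ (p u < p v ∧ M u v))) ∧ α u v = a) := by
      intro v hv
      rw [mem_filter] at hv
      rw [mem_union, mem_filter, mem_filter]
      rcases hne u v hv.2.1 with h | h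
      · by_cases hm : M u v
        · exact Or.inr ⟨hv.1, ⟨hv.2.1, Or.inr ⟨h, hm⟩⟩, hv.2.2⟩
        · exact Or.inl ⟨hv.1, ⟨hv.2.1, Or.inl ⟨h, hm⟩⟩, hv.2.2⟩
      · by_cases hm : M u v
        · exact Or.inl ⟨hv.1, ⟨hv.2.1, Or.inr ⟨h, hm⟩⟩, hv.2.2⟩
        · exact Or.inr ⟨hv.1, ⟨hv.2.1, Or.inl ⟨h, hm⟩⟩, hv.2.2⟩
    refine (card_le_card hsub).trans ((card_union_le _ _).trans ?_)
    have hA' : (univ.filter fun v => (G.Adj u v ∧ ((p u < p v ∧ ¬ M u v) ∨ (p v < p u ∧ M u v))) ∧
        α u v = a).card ≤ 1 := by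
      rw [card_le_one]
      intro v hv w hw
      rw [mem_filter] at hv hw
      exact hA u v w hv.2.1.1 hw.2.1.1 hv.2.1.2 hw.2.1.2 (hv.2.2.trans hw.2.2.symm)
    have hB' : (univ.filter fun v => (G.Adj u v ∧ ((p v < p u ∧ ¬ M u v) ∨ (p u < p v ∧ M u v))) ∧
        α u v = a).card ≤ 1 := by
      rw [card_le_one]
      intro v hv w hw
      rw [mem_filter] at hv hw
      exact hB u v w hv.2.1.1 hw.2.1.1 hv.2.1.2 hw.2.1.2 (hv.2.2.trans hw.2.2.symm)
    omega
  · intro a W w hw hW
    refine win G p hp Y hY M α hMY ?_ ?_ hA hB ?_ ?_ a W w hw hW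
    · intro u m v hm hum hv huv hvm
      rw [hMd] at hm ⊢
      refine ⟨hm.1, hv, Or.inl ⟨huv, ?_⟩⟩
      rcases hm.2.2 with h | h
      · refine lt_of_le_of_lt (Nat.add_le_add_right (card_le_card ?_) 3) h.2
        intro x hx
        rw [mem_filter] at hx ⊢
        exact ⟨hx.1, hx.2.trans hvm⟩
      · exact absurd h.1 (lt_asymm hum)
    · intro u m v hm hmu hv hvu hmv
      rw [hMd] at hm ⊢
      refine ⟨hm.1, hv, Or.inr ⟨hvu, ?_⟩⟩
      rcases hm.2.2 with h | h
      · exact absurd h.1 (lt_asymm hmu)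
      · refine lt_of_le_of_lt (Nat.add_le_add_right (card_le_card ?_) 3) h.2
        intro x hx
        rw [mem_filter] at hx ⊢
        exact ⟨hx.1, hmv.trans hx.2⟩
    · intro u m m' hm hm' h1' h2'
      rw [hαM u m hm, hαN m' u (hnM u m' hm')]
      exact (hβ3 u m m' hm hm' (Or.inl ⟨h1', h2'⟩)).symm
    · intro u m m' hm hm' h1' h2'
      rw [hαM u m hm, hαN m' u (hnM u m' hm')]
      exact (hβ3 u m m' hm hm' (Or.inr ⟨h2', h1'⟩)).symm

end Pool.Agent.BP
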